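import Pool.Agent.W_7d29a1_h46.Fin46

/-!
The final deduction: power convexity of the rate function gives `ν < 1` and `χ > 0` (`d = 1`).
-/

namespace Pool.Agent.W_7d29a1_qs

open MeasureTheory ProbabilityTheory Filter Topology Set Pool.Agent.W_MP_7d29a1_pr
  Pool.Agent.W_7d29a1_h46

/-- Young's inequality. -/
lemma young {c K x t : ℝ} (hc : 0 < c) (hK : 1 < K) (hx : 0 ≤ x) (ht : 0 ≤ t) :
    t * x - c * x ^ K ≤ (1 / c) ^ (1 / (K - 1)) * t ^ (1 + 1 / (K - 1)) := by
  have hK1 : 0 < K - 1 := by linarith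
  have hrhs : 0 ≤ (1 / c) ^ (1 / (K - 1)) * t ^ (1 + 1 / (K - 1)) := by positivity
  rcases hx.eq_or_lt with rfl | hx0
  · rw [Real.zero_rpow (by linarith)]
    linarith
  have e : x ^ K = x ^ (K - 1) * x := by
    rw [← Real.rpow_add_one hx0.ne']
    congr 1
    ring
  by_cases hcase : t ≤ c * x ^ (K - 1)
  · have h1 := mul_le_mul_of_nonneg_right hcase hx
    have h2 : c * x ^ K = c * x ^ (K - 1) * x := by rw [e]; ring
    linarith
  · push Not at hcase
    have h1 : x ^ (K - 1) ≤ t / c := by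
      rw [le_div_iff₀ hc]
      linarith
    have h2 : x ≤ (t / c) ^ (1 / (K - 1)) := by
      have h3 := Real.rpow_le_rpow (by positivity) h1 (show 0 ≤ 1 / (K - 1) by positivity)
      rwa [← Real.rpow_mul hx, mul_one_div_cancel hK1.ne', Real.rpow_one] at h3
    have ht0 : 0 < t := lt_of_le_of_lt (by positivity) hcase
    have h4 : (t / c) ^ (1 / (K - 1)) * t = (1 / c) ^ (1 / (K - 1)) * t ^ (1 + 1 / (K - 1)) := by
      rw [show t / c = 1 / c * t by ring, Real.mul_rpow (by positivity) ht,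
        add_comm (1 : ℝ) (1 / (K - 1)), Real.rpow_add_one ht0.ne']
      ring
    have h5 : 0 ≤ c * x ^ K := by positivity
    have h6 := mul_le_mul_of_nonneg_left h2 ht
    linarith

/-- A local power bound gives `Expd`. -/
lemma expd_of_local {L : ℝ → ℝ} (hL : ConvexOn ℝ univ L) {α h v C δ : ℝ} (hδ : 0 < δ)
    (hα : 0 < α) (hp : ∀ t : ℝ, |t| ≤ δ → L (h + t) ≤ L h + v * t + C * |t| ^ (1 + α)) :
    Expd L α h v := by
  set M : ℝ := max (L (h - 1)) (L (h + 1)) with hM
  set D : ℝ := (M - L h + |v|) / δ ^ (1 + α) with hD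
  have hdp : 0 < δ ^ (1 + α) := Real.rpow_pos_of_pos hδ _
  have hMh : 0 ≤ M - L h := by
    have h1 := hL.2 (mem_univ (h - 1)) (mem_univ (h + 1)) (show (0 : ℝ) ≤ 1 / 2 by norm_num)
      (show (0 : ℝ) ≤ 1 / 2 by norm_num) (by norm_num)
    simp only [smul_eq_mul] at h1
    have h2 : 1 / 2 * (h - 1) + 1 / 2 * (h + 1) = h := by ring
    rw [h2] at h1
    have h3 : L (h - 1) ≤ M := le_max_left _ _
    have h4 : L (h + 1) ≤ M := le_max_right _ _
    linarith
  have hD0 : 0 ≤ D := div_nonneg (by positivity) hdp.le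
  refine ⟨max C D, fun t ht => ?_⟩
  by_cases htd : |t| ≤ δ
  · refine (hp t htd).trans ?_
    have h1 : 0 ≤ |t| ^ (1 + α) := by positivity
    have h2 := mul_le_mul_of_nonneg_right (le_max_left C D) h1
    linarith
  · push Not at htd
    have h1 : L (h + t) ≤ M := by
      have h2 := abs_le.1 ht
      have h3 := hL.2 (mem_univ (h - 1)) (mem_univ (h + 1)) (show (0 : ℝ) ≤ (1 - t) / 2 by linarith)
        (show (0 : ℝ) ≤ (1 + t) / 2 by linarith) (by ring)
      simp only [smul_eq_mul] at h3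
      have h4 : (1 - t) / 2 * (h - 1) + (1 + t) / 2 * (h + 1) = h + t := by ring
      rw [h4] at h3
      have h5 : L (h - 1) ≤ M := le_max_left _ _
      have h6 : L (h + 1) ≤ M := le_max_right _ _
      have h7 := mul_le_mul_of_nonneg_left h5 (show (0 : ℝ) ≤ (1 - t) / 2 by linarith)
      have h8 := mul_le_mul_of_nonneg_left h6 (show (0 : ℝ) ≤ (1 + t) / 2 by linarith)
      linarith
    have h2 : D * δ ^ (1 + α) ≤ max C D * |t| ^ (1 + α) := by
      refine mul_le_mul (le_max_right _ _) ?_ hdp.le (hD0.trans (le_max_right _ _))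
      exact Real.rpow_le_rpow hδ.le htd.le (by linarith)
    rw [hD, div_mul_cancel₀ _ hdp.ne'] at h2
    have h3 : -|v| ≤ v * t := by
      have h4 : |v * t| ≤ |v| * 1 := by
        rw [abs_mul]
        exact mul_le_mul_of_nonneg_left ht (abs_nonneg v)
      have h5 := neg_abs_le (v * t)
      linarith
    linarith

/-- A subgradient of a convex function on the line. -/
lemma exists_subgrad {L : ℝ → ℝ} (hL : ConvexOn ℝ univ L) (x : ℝ) :
    ∃ v : ℝ, ∀ y : ℝ, L x + v * (y - x) ≤ L y := ⟨_, fun y => Peano_sub hL x y⟩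

/-- The conjugate form: `L` convex, `v0` a subgradient at `h`, and
`J v := sup_g (g v - L g)` has `J v ≥ h v - L h + c |v - v0| ^ K` for `|v - v0| ≤ r`. -/
lemma expd_of_conj {L : ℝ → ℝ} (hL : ConvexOn ℝ univ L) {h v0 c K r : ℝ} (hc : 0 < c)
    (hK : 1 < K) (hr : 0 < r) (hsub : ∀ y : ℝ, L h + v0 * (y - h) ≤ L y)
    (hJ : ∀ v : ℝ, |v - v0| ≤ r → ∃ g : ℝ, h * v - L h + c * |v - v0| ^ K ≤ g * v - L g) :
    Expd L (1 / (K - 1)) h v0 := by
  have hK1 : 0 < K - 1 := by linarith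
  have hrp : 0 < r ^ (K - 1) := Real.rpow_pos_of_pos hr _
  refine expd_of_local hL (C := (1 / c) ^ (1 / (K - 1))) (δ := c * r ^ (K - 1)) (by positivity)
    (by positivity) fun t ht => ?_
  obtain ⟨v, hv⟩ := exists_subgrad hL (h + t)
  by_cases hcase : |v - v0| ≤ r
  · obtain ⟨g, hg⟩ := hJ v hcase
    have h1 := hv g
    have h2 := young hc hK (abs_nonneg (v - v0)) (abs_nonneg t)
    have h3 : t * (v - v0) ≤ |t| * |v - v0| := by
      rw [← abs_mul]
      exact le_abs_self _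
    nlinarith
  · push Not at hcase
    have hx : 0 < |v - v0| := hr.trans hcase
    set θ : ℝ := r / |v - v0| with hθ
    have hθ0 : 0 < θ := by positivity
    have hθ1 : θ < 1 := by
      rw [hθ, div_lt_one hx]
      exact hcase
    have hθx : θ * |v - v0| = r := by rw [hθ]; field_simp
    have e1 : |v0 + θ * (v - v0) - v0| = r := by
      rw [add_sub_cancel_left, abs_mul, abs_of_pos hθ0, hθx]
    obtain ⟨g, hg⟩ := hJ (v0 + θ * (v - v0)) e1.le
    rw [e1] at hg
    have h1 := hsub g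
    have h2 := hv g
    have h3 : c * r ^ K ≤ θ * (t * v - L (h + t) + L h) := by
      have h4 := mul_le_mul_of_nonneg_left h1 (show 0 ≤ 1 - θ by linarith)
      have h5 := mul_le_mul_of_nonneg_left h2 hθ0.le
      nlinarith
    have e2 : r ^ K = r ^ (K - 1) * (θ * |v - v0|) := by
      rw [hθx, ← Real.rpow_add_one hr.ne']
      congr 1
      ring
    rw [e2] at h3
    have h4 : c * (r ^ (K - 1) * |v - v0|) ≤ t * v - L (h + t) + L h := by
      refine le_of_mul_le_mul_left ?_ hθ0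
      linarith
    have h5 : t * (v - v0) ≤ |t| * |v - v0| := by
      rw [← abs_mul]
      exact le_abs_self _
    have h6 := mul_le_mul_of_nonneg_right ht hx.le
    have h7 : 0 ≤ (1 / c) ^ (1 / (K - 1)) * |t| ^ (1 + 1 / (K - 1)) := by positivity
    linarith

/-- Growth from doubling: if `w δ ≤ (1 + η)⁻¹ w (A δ)` for small `δ` then `w` is bounded by a power. -/
lemma pow_of_growth {w : ℝ → ℝ} {η A δ0 W : ℝ} (hη : 0 < η) (hA : 1 < A) (hδ0 : 0 < δ0)
    (hW : ∀ δ, 0 < δ → δ ≤ A * δ0 → w δ ≤ W)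
    (hd : ∀ δ, 0 < δ → δ ≤ δ0 → (1 + η) * w δ ≤ w (A * δ)) {δ : ℝ} (hδ : 0 < δ)
    (hδ1 : δ ≤ δ0) :
    w δ ≤ |W| * (δ / δ0) ^ (Real.log (1 + η) / Real.log A) := by
  have hη1 : 0 < 1 + η := by linarith
  have hA0 : 0 < A := by linarith
  have hlA : 0 < Real.log A := Real.log_pos hA
  have hlη : 0 < Real.log (1 + η) := Real.log_pos (by linarith)
  have key : ∀ k : ℕ, ∀ x : ℝ, 0 < x → A ^ k * x ≤ A * δ0 → (1 + η) ^ k * w x ≤ |W| := by
    intro k
    induction k with
    | zero =>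
      intro x hx hxk
      rw [pow_zero, one_mul] at hxk ⊢
      exact (hW x hx hxk).trans (le_abs_self W)
    | succ k ih =>
      intro x hx hxk
      have h1 : A ^ k * (A * x) ≤ A * δ0 := by
        rw [← mul_assoc, ← pow_succ]
        exact hxk
      have h2 := ih (A * x) (by positivity) h1
      have h3 : x ≤ δ0 := by
        have h4 : A * (A ^ k * x) ≤ A * δ0 := by
          rw [← mul_assoc, ← pow_succ']
          exact hxk
        have h5 := le_of_mul_le_mul_left h4 hA0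
        have h6 : 1 * x ≤ A ^ k * x :=
          mul_le_mul_of_nonneg_right (one_le_pow₀ hA.le) hx.le
        linarith
      have h4 := mul_le_mul_of_nonneg_left (hd x hx h3) (show 0 ≤ (1 + η) ^ k by positivity)
      calc (1 + η) ^ (k + 1) * w x = (1 + η) ^ k * ((1 + η) * w x) := by ring
        _ ≤ (1 + η) ^ k * w (A * x) := h4
        _ ≤ |W| := h2
  -- the number of steps
  set y : ℝ := Real.log (δ0 / δ) / Real.log A with hy
  have hq : 1 ≤ δ0 / δ := by
    rw [le_div_iff₀ hδ]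
    linarith
  have hy0 : 0 ≤ y := div_nonneg (Real.log_nonneg hq) hlA.le
  set k : ℕ := ⌊y⌋₊ + 1 with hk
  have hk1 : (⌊y⌋₊ : ℝ) ≤ y := Nat.floor_le hy0
  have hk2 : y < (k : ℝ) := by
    rw [hk]
    push_cast
    exact Nat.lt_floor_add_one y
  have h1 : A ^ k * δ ≤ A * δ0 := by
    have h2 : (A : ℝ) ^ (⌊y⌋₊) ≤ δ0 / δ := by
      rw [← Real.log_le_log_iff (by positivity) (by positivity), Real.log_pow]
      have h3 := mul_le_mul_of_nonneg_right hk1 hlA.le
      rwa [hy, div_mul_cancel₀ _ hlA.ne'] at h3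
    have h3 := mul_le_mul_of_nonneg_right h2 hδ.le
    rw [div_mul_cancel₀ _ hδ.ne'] at h3
    have h4 := mul_le_mul_of_nonneg_left h3 hA0.le
    calc A ^ k * δ = A * (A ^ ⌊y⌋₊ * δ) := by rw [hk, pow_succ]; ring
      _ ≤ A * δ0 := h4
  have h2 := key k δ hδ h1
  have h3 : (δ0 / δ) ^ (Real.log (1 + η) / Real.log A) ≤ (1 + η) ^ k := by
    rw [← Real.log_le_log_iff (Real.rpow_pos_of_pos (by positivity) _) (by positivity),
      Real.log_pow, Real.log_rpow (by positivity)]
    have h4 := mul_le_mul_of_nonneg_right hk2.le hlη.le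
    have h5 : Real.log (1 + η) / Real.log A * Real.log (δ0 / δ) = y * Real.log (1 + η) := by
      rw [hy]
      ring
    linarith
  have h4 : (δ / δ0) ^ (Real.log (1 + η) / Real.log A) *
      (δ0 / δ) ^ (Real.log (1 + η) / Real.log A) = 1 := by
    rw [← Real.mul_rpow (by positivity) (by positivity), div_mul_div_comm,
      mul_comm δ δ0, div_self (by positivity), Real.one_rpow]
  have hp1 : 0 < (δ / δ0) ^ (Real.log (1 + η) / Real.log A) :=
    Real.rpow_pos_of_pos (by positivity) _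
  have hp2 : 0 < (δ0 / δ) ^ (Real.log (1 + η) / Real.log A) :=
    Real.rpow_pos_of_pos (by positivity) _
  rcases le_or_gt (w δ) 0 with h0 | h0
  · exact h0.trans (by positivity)
  · have h5 : (δ0 / δ) ^ (Real.log (1 + η) / Real.log A) * w δ ≤ |W| :=
      (mul_le_mul_of_nonneg_right h3 h0.le).trans h2
    calc w δ = (δ / δ0) ^ (Real.log (1 + η) / Real.log A) *
        ((δ0 / δ) ^ (Real.log (1 + η) / Real.log A) * w δ) := by rw [← mul_assoc, h4, one_mul]
      _ ≤ (δ / δ0) ^ (Real.log (1 + η) / Real.log A) * |W| :=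
        mul_le_mul_of_nonneg_left h5 hp1.le
      _ = _ := mul_comm _ _

/-- Doubling of `J` gives a power lower bound. -/
lemma pow_of_doubling {J : ℝ → ℝ} {η A v1 : ℝ} (hη : 0 < η) (hA : 1 < A) (hv1 : 0 < v1)
    (hmono : MonotoneOn J (Icc 0 v1)) (hJ : 0 < J (v1 / (1 + η)))
    (hd : ∀ v, 0 < v → (1 + η) * v ≤ v1 → J ((1 + η) * v) ≤ A * J v) {v : ℝ} (hv : 0 < v)
    (hvv : v ≤ v1) :
    J (v1 / (1 + η)) * (v / v1) ^ (Real.log A / Real.log (1 + η)) ≤ J v := by
  have hη1 : 0 < 1 + η := by linarith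
  have hA0 : 0 < A := by linarith
  have hlA : 0 < Real.log A := Real.log_pos hA
  have hlη : 0 < Real.log (1 + η) := Real.log_pos (by linarith)
  have key : ∀ k : ℕ, ∀ x : ℝ, 0 < x → (1 + η) ^ k * x ≤ v1 → J ((1 + η) ^ k * x) ≤ A ^ k * J x := by
    intro k
    induction k with
    | zero => intro x _ _; simp
    | succ k ih =>
      intro x hx hxk
      have e : (1 + η) ^ (k + 1) * x = (1 + η) ^ k * ((1 + η) * x) := by ring
      rw [e] at hxk ⊢
      have h1 := ih ((1 + η) * x) (by positivity) hxk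
      have h3 : (1 + η) * x ≤ v1 := by
        have h6 : 1 * ((1 + η) * x) ≤ (1 + η) ^ k * ((1 + η) * x) :=
          mul_le_mul_of_nonneg_right (one_le_pow₀ (by linarith)) (by positivity)
        linarith
      have h4 := mul_le_mul_of_nonneg_left (hd x hx h3) (show 0 ≤ A ^ k by positivity)
      calc _ ≤ A ^ k * J ((1 + η) * x) := h1
        _ ≤ A ^ k * (A * J x) := h4
        _ = A ^ (k + 1) * J x := by ring
  set y : ℝ := Real.log (v1 / v) / Real.log (1 + η) with hy
  have hq : 1 ≤ v1 / v := by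
    rw [le_div_iff₀ hv]
    linarith
  have hy0 : 0 ≤ y := div_nonneg (Real.log_nonneg hq) hlη.le
  set k : ℕ := ⌊y⌋₊ with hk
  have hk1 : (k : ℝ) ≤ y := Nat.floor_le hy0
  have hk2 : y < (k : ℝ) + 1 := Nat.lt_floor_add_one y
  have h1 : (1 + η) ^ k * v ≤ v1 := by
    have h2 : (1 + η : ℝ) ^ k ≤ v1 / v := by
      rw [← Real.log_le_log_iff (by positivity) (by positivity), Real.log_pow]
      have h3 := mul_le_mul_of_nonneg_right hk1 hlη.le
      rwa [hy, div_mul_cancel₀ _ hlη.ne'] at h3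
    have h3 := mul_le_mul_of_nonneg_right h2 hv.le
    rwa [div_mul_cancel₀ _ hv.ne'] at h3
  have h1' : v1 / (1 + η) ≤ (1 + η) ^ k * v := by
    have h2 : v1 / v ≤ (1 + η : ℝ) ^ (k + 1) := by
      rw [← Real.log_le_log_iff (by positivity) (by positivity), Real.log_pow]
      have h3 := mul_le_mul_of_nonneg_right hk2.le hlη.le
      rw [hy, div_mul_cancel₀ _ hlη.ne'] at h3
      push_cast
      exact h3
    have h3 := mul_le_mul_of_nonneg_right h2 hv.le
    rw [div_mul_cancel₀ _ hv.ne'] at h3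
    rw [div_le_iff₀ hη1]
    calc v1 ≤ (1 + η) ^ (k + 1) * v := h3
      _ = (1 + η) ^ k * v * (1 + η) := by ring
  have h2 := key k v hv h1
  have h3 : J (v1 / (1 + η)) ≤ J ((1 + η) ^ k * v) :=
    hmono ⟨by positivity, h1'.trans h1⟩ ⟨by positivity, h1⟩ h1'
  have h4 : (v / v1) ^ (Real.log A / Real.log (1 + η)) * A ^ k ≤ 1 := by
    rw [← Real.log_le_log_iff (mul_pos (Real.rpow_pos_of_pos (by positivity) _) (by positivity))
      one_pos, Real.log_mul (Real.rpow_pos_of_pos (by positivity) _).ne' (by positivity),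
      Real.log_pow, Real.log_rpow (by positivity), Real.log_one]
    have h5 : Real.log (v / v1) = -(y * Real.log (1 + η)) := by
      rw [hy, div_mul_cancel₀ _ hlη.ne', ← Real.log_inv, inv_div]
    have h6 : Real.log A / Real.log (1 + η) * Real.log (v / v1) = -(y * Real.log A) := by
      rw [h5]
      field_simp
    rw [h6]
    have h7 := mul_le_mul_of_nonneg_right hk1 hlA.le
    linarith
  have hp : 0 < (v / v1) ^ (Real.log A / Real.log (1 + η)) :=
    Real.rpow_pos_of_pos (by positivity) _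
  have hJv : 0 < J v := by
    have h5 : 0 < A ^ k * J v := lt_of_lt_of_le hJ (h3.trans h2)
    exact pos_of_mul_pos_right h5 (by positivity)
  calc J (v1 / (1 + η)) * (v / v1) ^ (Real.log A / Real.log (1 + η))
      ≤ (A ^ k * J v) * (v / v1) ^ (Real.log A / Real.log (1 + η)) :=
        mul_le_mul_of_nonneg_right (h3.trans h2) hp.le
    _ = ((v / v1) ^ (Real.log A / Real.log (1 + η)) * A ^ k) * J v := by ring
    _ ≤ 1 * J v := mul_le_mul_of_nonneg_right h4 hJv.le
    _ = J v := one_mul _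

section

variable {Ω : Type*} [MeasurableSpace Ω] {μ : Measure Ω} [IsProbabilityMeasure μ]
  {ρ : Measure ℝ} [IsProbabilityMeasure ρ] {ω : ℕ × Site 1 → Ω → ℝ} {β : ℝ}

/-- Power convexity at the tilt `h` gives nontrivial exponents at the tilt `h`. -/
theorem nu_chi_of_expd (hω : IID μ ρ ω) (hnc : ∀ c : ℝ, ρ {c} ≠ 1) (hβ : 0 < β)
    (hexp : ∀ b : ℝ, Integrable (fun t => Real.exp (b * t)) ρ) {h v α : ℝ} (hα : 0 < α)
    (hE : Expd (W_7d29a1_h47.Lam (ρ.map fun t => β * t)) α h v) :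
    nuT μ β ω (tv h) (tv v) ≤ 1 / 2 + 1 / (2 * (1 + α)) ∧
      α / (4 * (1 + α)) ≤ chiT μ β ω (tv h) := by
  have h1 := nuT_le_of_expd hω hexp hα hE
  refine ⟨h1, ?_⟩
  refine le_of_forall_pos_le_add fun ε hε => ?_
  set b : ℝ := 1 / 2 + 1 / (2 * (1 + α)) with hb
  have hb0 : 0 < b := by positivity
  have hb1 : b < 1 := by
    have : 1 / (2 * (1 + α)) < 1 / 2 := by
      apply one_div_lt_one_div_of_lt (by norm_num)
      linarith
    linarith
  set a : ℝ := b + min ε ((1 - b) / 2) with ha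
  have hm : 0 < min ε ((1 - b) / 2) := lt_min hε (by linarith)
  have hm1 : min ε ((1 - b) / 2) ≤ (1 - b) / 2 := min_le_right _ _
  have hm2 : min ε ((1 - b) / 2) ≤ ε := min_le_left _ _
  have h2 := chi_ge (d := 1) (a := a) one_pos hω hnc hβ hexp (by linarith)
    (by push_cast; linarith) (lt_of_le_of_lt h1 (by linarith))
  push_cast at h2
  have e : α / (4 * (1 + α)) = (1 - b) / 2 := by
    rw [hb]
    field_simp
    ring
  rw [e]
  linarith

lemma tv_zero' : tv 0 = (0 : Vec 1) := by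
  ext i
  rw [tr_tv_apply]
  rfl

/-- Power convexity at `0`: `ν ≤ (2 + α) / (2 + 2 α) < 1` and `χ ≥ α / (4 (1 + α)) > 0` for the
exponents of the problem. -/
theorem nu_chi_zero (hω : IID μ ρ ω) (hnc : ∀ c : ℝ, ρ {c} ≠ 1) (hβ : 0 < β)
    (hexp : ∀ b : ℝ, Integrable (fun t => Real.exp (b * t)) ρ) {α C δ : ℝ} (hα : 0 < α)
    (hδ : 0 < δ)
    (hE : ∀ t : ℝ, |t| ≤ δ → W_7d29a1_h47.Lam (ρ.map fun t => β * t) t ≤
      W_7d29a1_h47.Lam (ρ.map fun t => β * t) 0 + C * |t| ^ (1 + α)) :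
    nu μ β ω ≤ 1 / 2 + 1 / (2 * (1 + α)) ∧ α / (4 * (1 + α)) ≤ chiT μ β ω 0 := by
  have hE' : Expd (W_7d29a1_h47.Lam (ρ.map fun t => β * t)) α 0 0 := by
    refine expd_of_local (lam_convex hexp) hδ hα (C := C) fun t ht => ?_
    rw [zero_add, zero_mul, add_zero]
    exact hE t ht
  have h1 := nu_chi_of_expd hω hnc hβ hexp hα hE'
  rwa [tv_zero', nuT_zero] at h1

end

end Pool.Agent.W_7d29a1_qs
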